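import Mathlib

set_option autoImplicit false

namespace Pool.Agent.R272.IsoIdeal

/-- The values `|∑ φ(x_i) ψ(z_i)|` over functionals with `‖φ‖ ≤ 1`, `‖ψ‖ ≤ 1`. -/
def dualValues {X Z : Type*} [NormedAddCommGroup X] [NormedSpace ℝ X]
    [NormedAddCommGroup Z] [NormedSpace ℝ Z] {n : ℕ} (x : Fin n → X) (z : Fin n → Z) : Set ℝ :=
  {r : ℝ | ∃ (φ : StrongDual ℝ X) (ψ : StrongDual ℝ Z), ‖φ‖ ≤ 1 ∧ ‖ψ‖ ≤ 1 ∧
      r = |∑ i, φ (x i) * ψ (z i)|}

/-- For `(V, t)` the injective tensor product of `X` and `Z`: the closed linear span of the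
`y ⊗ z = t y z` with `y ∈ Y`, i.e. `Y ⊗̂_ε Z` inside `X ⊗̂_ε Z`. -/
def tensorSub {X Z V : Type*} [NormedAddCommGroup X] [NormedSpace ℝ X]
    [NormedAddCommGroup Z] [NormedSpace ℝ Z] [NormedAddCommGroup V] [NormedSpace ℝ V]
    (t : X →ₗ[ℝ] Z →ₗ[ℝ] V) (Y : Submodule ℝ X) : Submodule ℝ V :=
  (Submodule.span ℝ {v | ∃ y ∈ Y, ∃ z, v = t y z}).topologicalClosure

/-- `(V, t)` is the injective tensor product `X ⊗̂_ε Z` with its canonical map
`(x, z) ↦ x ⊗ z`: `V` is a Banach space, `t` is bilinear, the norm of `∑ t (x_i) (z_i)` is the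
supremum of `|∑ φ(x_i) ψ(z_i)|` over `‖φ‖, ‖ψ‖ ≤ 1`, and the `t x z` span a dense subspace. -/
structure IsInjectiveTensor {X Z V : Type*} [NormedAddCommGroup X] [NormedSpace ℝ X]
    [NormedAddCommGroup Z] [NormedSpace ℝ Z] [NormedAddCommGroup V] [NormedSpace ℝ V]
    (t : X →ₗ[ℝ] Z →ₗ[ℝ] V) : Prop where
  complete : CompleteSpace V
  norm_eq : ∀ (n : ℕ) (x : Fin n → X) (z : Fin n → Z),
    IsLUB (dualValues x z) ‖∑ i, t (x i) (z i)‖
  dense : tensorSub t ⊤ = ⊤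

/-- There is a linear isometry `T : E → Y` with `T e = e` for `e ∈ E ∩ Y`. -/
def FixedIsometry {X : Type*} [NormedAddCommGroup X] [NormedSpace ℝ X]
    (E Y : Submodule ℝ X) : Prop :=
  ∃ T : E →ₗᵢ[ℝ] X, (∀ x, T x ∈ Y) ∧ ∀ x : E, (x : X) ∈ Y → T x = x

/-- `Y` is an isometric ideal in `X`. -/
def IsometricIdeal {X : Type*} [NormedAddCommGroup X] [NormedSpace ℝ X]
    (Y : Submodule ℝ X) : Prop :=
  ∀ E : Submodule ℝ X, FiniteDimensional ℝ E → FixedIsometry E Y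

/-- `(V, t)` is the injective tensor product of `X` and `Z`, and `Y` is a closed subspace of `X`
which is an isometric ideal in `X` while `Y ⊗̂_ε Z` is not an isometric ideal in `X ⊗̂_ε Z`. -/
def Counterexample {X Z V : Type*} [NormedAddCommGroup X] [NormedSpace ℝ X]
    [NormedAddCommGroup Z] [NormedSpace ℝ Z] [NormedAddCommGroup V] [NormedSpace ℝ V]
    (t : X →ₗ[ℝ] Z →ₗ[ℝ] V) (Y : Submodule ℝ X) : Prop :=
  IsInjectiveTensor t ∧ IsClosed (Y : Set X) ∧ IsometricIdeal Y ∧ ¬ IsometricIdeal (tensorSub t Y)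

end Pool.Agent.R272.IsoIdeal
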