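import Pool.Agent.R272.IsoIdeal.Main

set_option autoImplicit false

namespace Pool.Agent.R272.IsoIdeal

open Topology Filter OnePoint
open scoped InnerProductSpace lp

section Hilbert

variable {X : Type*} [NormedAddCommGroup X] [InnerProductSpace ℝ X]

/-- The sequence `z(n) = b(φ(n)+2)/(n+1)`, `z(∞) = 0`. -/
noncomputable def zz (b : HilbertBasis ℕ ℝ X) : C(OnePoint ℕ, X) :=
  continuousMapMkNat (fun n => (1 / ((n : ℝ) + 1)) • b ((Nat.unpair n).1 + 2)) 0 (by
    rw [tendsto_zero_iff_norm_tendsto_zero]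
    have h1 : (fun n : ℕ => ‖(1 / ((n : ℝ) + 1)) • b ((Nat.unpair n).1 + 2)‖) =
        fun n : ℕ => 1 / ((n : ℝ) + 1) := by
      funext n
      rw [norm_smul, b.orthonormal.1, mul_one, Real.norm_of_nonneg (by positivity)]
    rw [h1]
    exact tendsto_one_div_add_atTop_nhds_zero_nat)

theorem zz_coe (b : HilbertBasis ℕ ℝ X) (n : ℕ) :
    zz b (n : OnePoint ℕ) = (1 / ((n : ℝ) + 1)) • b ((Nat.unpair n).1 + 2) := rfl
theorem zz_infty (b : HilbertBasis ℕ ℝ X) : zz b ∞ = 0 := rfl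

theorem inner_b (b : HilbertBasis ℕ ℝ X) (i j : ℕ) : ⟪b i, b j⟫_ℝ = if i = j then 1 else 0 :=
  orthonormal_iff_ite.mp b.orthonormal i j

theorem zz_perp (b : HilbertBasis ℕ ℝ X) {i : ℕ} (hi : i < 2) (k : OnePoint ℕ) :
    ⟪b i, zz b k⟫_ℝ = 0 := by
  induction k using OnePoint.rec with
  | infty => rw [zz_infty, inner_zero_right]
  | coe m =>
    rw [zz_coe, inner_smul_right, inner_b, if_neg (by omega), mul_zero]

theorem zz_norm (b : HilbertBasis ℕ ℝ X) (k : OnePoint ℕ) : ‖zz b k‖ ≤ 1 := by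
  induction k using OnePoint.rec with
  | infty => rw [zz_infty, norm_zero]; norm_num
  | coe m =>
    rw [zz_coe, norm_smul, b.orthonormal.1, mul_one, Real.norm_of_nonneg (by positivity)]
    exact (tau_bd (m : OnePoint ℕ)).2

theorem not_ideal [CompleteSpace X] (b : HilbertBasis ℕ ℝ X) :
    ¬ IsometricIdeal (tensorSub (tt (X := X) (K := OnePoint ℕ)) (Submodule.span ℝ {b 0})ᗮ) := by
  intro hI
  set Y : Submodule ℝ X := (Submodule.span ℝ {b 0})ᗮ with hY
  have hYc : IsClosed (Y : Set X) := Submodule.isClosed_orthogonal _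
  have hmemY : ∀ x : X, x ∈ Y ↔ ⟪b 0, x⟫_ℝ = 0 := fun x =>
    Submodule.mem_orthogonal_singleton_iff_inner_right
  set M := tensorSub (tt (X := X) (K := OnePoint ℕ)) Y with hM
  have hu : b 1 ∈ Y := by rw [hmemY, inner_b]; norm_num
  have huM : ∀ f : C(OnePoint ℕ, ℝ), tt (b 1) f ∈ M := by
    intro f
    apply mem_tensorSub
    intro k
    exact Y.smul_mem _ hu
  have hzM : zz b ∈ M := mem_tensorSub fun k => by
    rw [hmemY]
    exact zz_perp b (by norm_num) k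
  let E : Submodule ℝ C(OnePoint ℕ, X) := Submodule.span ℝ
    ({tt (b 1) 1, tt (b 1) tau, tt (b 1) (tau * tau), zz b, tt (b 0) 1} : Set C(OnePoint ℕ, X))
  have hEf : FiniteDimensional ℝ E := by
    apply FiniteDimensional.span_of_finite
    exact Set.toFinite _
  obtain ⟨T, hT1, hT2⟩ := hI E hEf
  have m1 : tt (b 1) 1 ∈ E := Submodule.subset_span (by simp)
  have m2 : tt (b 1) tau ∈ E := Submodule.subset_span (by simp)
  have m3 : tt (b 1) (tau * tau) ∈ E := Submodule.subset_span (by simp)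
  have m4 : zz b ∈ E := Submodule.subset_span (by simp)
  have m5 : tt (b 0) 1 ∈ E := Submodule.subset_span (by simp)
  have mq : ∀ m : ℕ, tt (b 1) (qq m) ∈ E := by
    intro m
    rw [tt_qq]
    exact E.sub_mem (E.add_mem (E.smul_mem _ m1) (E.smul_mem _ m2)) m3
  set g : C(OnePoint ℕ, X) := T ⟨tt (b 0) 1, m5⟩ with hg
  have hgM : g ∈ M := hT1 _
  have hgY := tensorSub_vals hYc hgM
  have h : ∀ (m : ℕ) (R a : ℝ), ‖R • tt (b 1) (qq m) + zz b + a • g‖ =
      ‖R • tt (b 1) (qq m) + zz b + a • tt (b 0) 1‖ := by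
    intro m R a
    have e1 : T (R • ⟨tt (b 1) (qq m), mq m⟩ + ⟨zz b, m4⟩ + a • ⟨tt (b 0) 1, m5⟩) =
        R • tt (b 1) (qq m) + zz b + a • g := by
      rw [map_add, map_add, _root_.map_smul, _root_.map_smul, hT2 ⟨tt (b 1) (qq m), mq m⟩ (huM _),
        hT2 ⟨zz b, m4⟩ hzM]
    rw [← e1, T.norm_map]
    rfl
  have hn1 : ‖b 1‖ = 1 := b.orthonormal.1 1
  have hn0 : ‖b 0‖ = 1 := b.orthonormal.1 0
  have hp := peak hn1 hn0 (by rw [inner_b]; norm_num) (zz_perp b (by norm_num))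
    (zz_perp b (by norm_num)) (zz_norm b) h
  have hlim : Tendsto (fun m : ℕ => g (m : OnePoint ℕ)) atTop (𝓝 (g ∞)) :=
    (continuous_iff_from_nat g).mp g.continuous
  -- `g ∞` has norm at least one
  have hnorm : 1 ≤ ‖g ∞‖ := ge_of_tendsto' hlim.norm fun m => (hp m).2.2
  -- `g ∞` is orthogonal to everything
  have h1 : ⟪b 1, g ∞⟫_ℝ = 0 := by
    have hl : Tendsto (fun m : ℕ => ⟪b 1, g (m : OnePoint ℕ)⟫_ℝ) atTop (𝓝 ⟪b 1, g ∞⟫_ℝ) :=
      tendsto_const_nhds.inner hlim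
    refine tendsto_nhds_unique hl ?_
    have : (fun m : ℕ => ⟪b 1, g (m : OnePoint ℕ)⟫_ℝ) = fun _ => 0 := by
      funext m; exact (hp m).1
    rw [this]
    exact tendsto_const_nhds
  have h2 : ∀ j : ℕ, ⟪b (j + 2), g ∞⟫_ℝ = 0 := by
    intro j
    have hpair : Tendsto (fun i : ℕ => Nat.pair j i) atTop atTop :=
      tendsto_atTop_mono (fun i => Nat.right_le_pair j i) tendsto_id
    have hl : Tendsto (fun i : ℕ => ⟪b (j + 2), g ((Nat.pair j i : ℕ) : OnePoint ℕ)⟫_ℝ) atTop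
        (𝓝 ⟪b (j + 2), g ∞⟫_ℝ) :=
      tendsto_const_nhds.inner (hlim.comp hpair)
    refine tendsto_nhds_unique hl ?_
    have : (fun i : ℕ => ⟪b (j + 2), g ((Nat.pair j i : ℕ) : OnePoint ℕ)⟫_ℝ) = fun _ => 0 := by
      funext i
      have h3 := (hp (Nat.pair j i)).2.1
      rw [zz_coe, Nat.unpair_pair, inner_smul_left] at h3
      simp only [RCLike.conj_to_real] at h3
      rcases mul_eq_zero.mp h3 with h4 | h4
      · exfalso
        have : (0 : ℝ) < 1 / ((Nat.pair j i : ℝ) + 1) := by positivity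
        exact this.ne' h4
      · exact h4
    rw [this]
    exact tendsto_const_nhds
  have h0 : ⟪b 0, g ∞⟫_ℝ = 0 := (hmemY _).mp (hgY ∞)
  have hall : ∀ i : ℕ, ⟪b i, g ∞⟫_ℝ = 0 := by
    intro i
    rcases i with _ | _ | j
    · exact h0
    · exact h1
    · exact h2 j
  have hzero : g ∞ = 0 := by
    apply b.repr.injective
    rw [map_zero]
    ext i
    rw [b.repr_apply_apply, hall]
    rfl
  rw [hzero, norm_zero] at hnorm
  norm_num at hnorm

end Hilbert

theorem l2_not_finite : ¬ FiniteDimensional ℝ ℓ²(ℕ, ℝ) := by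
  intro hf
  have b : HilbertBasis ℕ ℝ ℓ²(ℕ, ℝ) := default
  have hli : LinearIndependent ℝ (b : ℕ → ℓ²(ℕ, ℝ)) := b.orthonormal.linearIndependent
  have := hli.finite_of_isNoetherian
  exact _root_.not_finite ℕ

/-- Counterexample: `X = ℓ₂`, `Z = C(ω+1) = c`, `X ⊗̂_ε Z = C(ω+1, ℓ₂)`. -/
theorem main : ∃ (X Z V : Type) (_ : NormedAddCommGroup X) (_ : NormedSpace ℝ X)
    (_ : CompleteSpace X) (_ : NormedAddCommGroup Z) (_ : NormedSpace ℝ Z) (_ : CompleteSpace Z)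
    (_ : NormedAddCommGroup V) (_ : NormedSpace ℝ V)
    (t : X →ₗ[ℝ] Z →ₗ[ℝ] V) (Y : Submodule ℝ X), Counterexample t Y := by
  have b : HilbertBasis ℕ ℝ ℓ²(ℕ, ℝ) := default
  exact ⟨ℓ²(ℕ, ℝ), C(OnePoint ℕ, ℝ), C(OnePoint ℕ, ℓ²(ℕ, ℝ)), inferInstance, inferInstance,
    inferInstance, inferInstance, inferInstance, inferInstance, inferInstance, inferInstance,
    tt, (Submodule.span ℝ {b 0})ᗮ, isInjectiveTensor,
    Submodule.isClosed_orthogonal _, ideal_perp l2_not_finite (b.orthonormal.1 0), not_ideal b⟩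

end Pool.Agent.R272.IsoIdeal
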