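import Pool.Agent.R272.IsoIdeal.Defs

set_option autoImplicit false

namespace Pool.Agent.R272.IsoIdeal

open Topology Filter OnePoint
open scoped InnerProductSpace

section Hilbert

variable {X : Type*} [NormedAddCommGroup X] [InnerProductSpace ℝ X]

/-- The orthogonal complement of a unit vector is an isometric ideal (infinite dimension). -/
theorem ideal_perp [CompleteSpace X] (hX : ¬ FiniteDimensional ℝ X) {e : X} (he : ‖e‖ = 1) :
    IsometricIdeal (Submodule.span ℝ {e})ᗮ := by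
  intro E hE
  -- a unit vector orthogonal to `E` and `e`
  have hF : FiniteDimensional ℝ (E ⊔ Submodule.span ℝ {e} : Submodule ℝ X) := inferInstance
  obtain ⟨f, hf1, hf2⟩ : ∃ f : X, ‖f‖ = 1 ∧ f ∈ (E ⊔ Submodule.span ℝ {e} : Submodule ℝ X)ᗮ := by
    by_contra hcon
    push Not at hcon
    have hbot : (E ⊔ Submodule.span ℝ {e} : Submodule ℝ X)ᗮ = ⊥ := by
      rw [Submodule.eq_bot_iff]
      intro x hx
      by_contra hx0
      have hn : ‖x‖ ≠ 0 := norm_ne_zero_iff.mpr hx0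
      refine hcon (‖x‖⁻¹ • x) ?_ (Submodule.smul_mem _ _ hx)
      rw [norm_smul, norm_inv, norm_norm, inv_mul_cancel₀ hn]
    rw [Submodule.orthogonal_eq_bot_iff] at hbot
    rw [hbot] at hF
    exact hX (LinearEquiv.finiteDimensional (Submodule.topEquiv : (⊤ : Submodule ℝ X) ≃ₗ[ℝ] X))
  have hfE : ∀ x ∈ E, ⟪x, f⟫_ℝ = 0 := fun x hx =>
    (Submodule.mem_orthogonal _ f).mp hf2 x (Submodule.mem_sup_left hx)
  have hfe : ⟪e, f⟫_ℝ = 0 :=
    (Submodule.mem_orthogonal _ f).mp hf2 e (Submodule.mem_sup_right (Submodule.mem_span_singleton_self e))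
  let L : X →ₗ[ℝ] X := LinearMap.id + ((innerSL ℝ e : X →L[ℝ] ℝ) : X →ₗ[ℝ] ℝ).smulRight (f - e)
  have hL : ∀ x, L x = x + ⟪e, x⟫_ℝ • (f - e) := fun x => by simp [L]
  have hee : ⟪e, e⟫_ℝ = 1 := by rw [real_inner_self_eq_norm_sq, he]; norm_num
  have hff : ⟪f, f⟫_ℝ = 1 := by rw [real_inner_self_eq_norm_sq, hf1]; norm_num
  refine ⟨⟨L ∘ₗ E.subtype, ?_⟩, ?_, ?_⟩
  · intro x
    have h1 : ‖L x‖ ^ 2 = ‖(x : X)‖ ^ 2 := by
      rw [hL, ← real_inner_self_eq_norm_sq, ← real_inner_self_eq_norm_sq]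
      simp only [inner_add_left, inner_add_right, inner_smul_left, inner_smul_right, inner_sub_left,
        inner_sub_right, RCLike.conj_to_real]
      rw [real_inner_comm (x : X) f, real_inner_comm (x : X) e, hfE x x.2, real_inner_comm e f, hfe,
        hee, hff]
      ring
    have h2 : ‖L x‖ = ‖(x : X)‖ := by
      have := sq_eq_sq₀ (norm_nonneg (L x)) (norm_nonneg (x : X))
      exact this.mp h1
    simpa using h2
  · intro x
    rw [Submodule.mem_orthogonal_singleton_iff_inner_right]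
    show ⟪e, L x⟫_ℝ = 0
    rw [hL, inner_add_right, inner_smul_right, inner_sub_right, hfe, hee]
    ring
  · intro x hx
    rw [Submodule.mem_orthogonal_singleton_iff_inner_right] at hx
    show L x = x
    rw [hL, hx, zero_smul, add_zero]

/-- The canonical bilinear map `X × C(K) → C(K, X)`. -/
def tt {K : Type*} [TopologicalSpace K] [CompactSpace K] : X →ₗ[ℝ] C(K, ℝ) →ₗ[ℝ] C(K, X) :=
  LinearMap.mk₂ ℝ (fun x f => (⟨fun k => f k • x, by fun_prop⟩ : C(K, X)))
    (fun x y f => by ext k; simp) (fun c x f => by ext k; simp [smul_smul, mul_comm])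
    (fun x f g => by ext k; simp [add_smul]) (fun c x f => by ext k; simp [smul_smul])

@[simp] theorem tt_apply {K : Type*} [TopologicalSpace K] [CompactSpace K] (x : X) (f : C(K, ℝ))
    (k : K) : tt x f k = f k • x := rfl

/-- The indicator of the point `n` of `OnePoint ℕ`. -/
noncomputable def dl (n : ℕ) : C(OnePoint ℕ, ℝ) :=
  continuousMapMkNat (fun m => if m = n then 1 else 0) 0 (by
    apply tendsto_const_nhds.congr'
    filter_upwards [eventually_gt_atTop n] with m hm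
    rw [if_neg hm.ne'])

theorem dl_coe (n m : ℕ) : dl n (m : OnePoint ℕ) = if m = n then 1 else 0 := rfl
theorem dl_infty (n : ℕ) : dl n ∞ = 0 := rfl

/-- Density. -/
theorem mem_tensorSub {Y : Submodule ℝ X} {g : C(OnePoint ℕ, X)} (hg : ∀ k, g k ∈ Y) :
    g ∈ tensorSub (tt (X := X) (K := OnePoint ℕ)) Y := by
  let S : ℕ → C(OnePoint ℕ, X) := fun N =>
    tt (g ∞) 1 + ∑ n ∈ Finset.range N, tt (g (n : OnePoint ℕ) - g ∞) (dl n)
  have hS : ∀ N, S N ∈ (Submodule.span ℝ {v | ∃ y ∈ Y, ∃ z, v = tt (K := OnePoint ℕ) y z}) := by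
    intro N
    refine Submodule.add_mem _ (Submodule.subset_span ⟨_, hg ∞, _, rfl⟩) (Submodule.sum_mem _ ?_)
    intro n _
    exact Submodule.subset_span ⟨_, Y.sub_mem (hg _) (hg _), _, rfl⟩
  have hval1 : ∀ N, S N ∞ = g ∞ := by
    intro N
    simp [S, dl_infty]
  have hval2 : ∀ N m : ℕ, S N (m : OnePoint ℕ) = if m < N then g (m : OnePoint ℕ) else g ∞ := by
    intro N m
    simp only [S, ContinuousMap.add_apply, ContinuousMap.sum_apply, tt_apply, dl_coe,
      ContinuousMap.one_apply, one_smul, ite_smul, zero_smul]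
    rw [Finset.sum_ite_eq]
    simp only [Finset.mem_range]
    split_ifs with h
    · abel
    · abel
  have hlim : Tendsto (fun m : ℕ => g (m : OnePoint ℕ)) atTop (𝓝 (g ∞)) :=
    (continuous_iff_from_nat g).mp g.continuous
  have hT : Tendsto S atTop (𝓝 g) := by
    rw [Metric.tendsto_atTop]
    intro ε hε
    obtain ⟨N, hN⟩ := (Metric.tendsto_atTop.mp hlim) (ε / 2) (by positivity)
    refine ⟨N, fun n hn => ?_⟩
    have h1 : dist (S n) g ≤ ε / 2 := by
      rw [ContinuousMap.dist_le (by positivity)]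
      intro k
      induction k using OnePoint.rec with
      | infty => rw [hval1, dist_self]; positivity
      | coe m =>
        rw [hval2]
        split_ifs with h
        · rw [dist_self]; positivity
        · rw [dist_comm]
          exact (hN m (by omega)).le
    linarith
  exact mem_closure_of_tendsto hT (Eventually.of_forall hS)

theorem tensorSub_vals {Y : Submodule ℝ X} (hY : IsClosed (Y : Set X)) {g : C(OnePoint ℕ, X)}
    (hg : g ∈ tensorSub (tt (X := X) (K := OnePoint ℕ)) Y) : ∀ k, g k ∈ Y := by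
  let M : Submodule ℝ C(OnePoint ℕ, X) :=
    { carrier := {g | ∀ k, g k ∈ Y}
      add_mem' := fun ha hb k => Y.add_mem (ha k) (hb k)
      zero_mem' := fun k => Y.zero_mem
      smul_mem' := fun c g hg k => Y.smul_mem c (hg k) }
  have hM : IsClosed (M : Set C(OnePoint ℕ, X)) := by
    have : (M : Set C(OnePoint ℕ, X)) = ⋂ k : OnePoint ℕ, {g | g k ∈ Y} := by
      ext g
      simp only [Set.mem_iInter]
      rfl
    rw [this]
    apply isClosed_iInter
    intro k
    exact hY.preimage (continuous_eval_const k)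
  have h1 : tensorSub (tt (X := X) (K := OnePoint ℕ)) Y ≤ M := by
    apply Submodule.topologicalClosure_minimal _ _ hM
    rw [Submodule.span_le]
    rintro v ⟨y, hy, z, rfl⟩ k
    exact Y.smul_mem _ hy
  exact h1 hg

theorem isInjectiveTensor [CompleteSpace X] :
    IsInjectiveTensor (tt (X := X) (K := OnePoint ℕ)) where
  complete := inferInstance
  norm_eq := by
    intro n x z
    constructor
    · rintro r ⟨φ, ψ, hφ, hψ, rfl⟩
      have h1 : ∑ i, φ (x i) * ψ (z i) = ψ (∑ i, φ (x i) • z i) := by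
        rw [map_sum]
        simp
      rw [h1, ← Real.norm_eq_abs]
      calc ‖ψ (∑ i, φ (x i) • z i)‖ ≤ ‖ψ‖ * ‖∑ i, φ (x i) • z i‖ := ψ.le_opNorm _
        _ ≤ 1 * ‖∑ i, φ (x i) • z i‖ := by gcongr
        _ = ‖∑ i, φ (x i) • z i‖ := one_mul _
        _ ≤ ‖∑ i, tt (x i) (z i)‖ := by
          rw [ContinuousMap.norm_le _ (norm_nonneg _)]
          intro k
          have h2 : (∑ i, φ (x i) • z i) k = φ ((∑ i, tt (x i) (z i)) k) := by
            simp [ContinuousMap.sum_apply, map_sum, mul_comm]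
          rw [h2]
          calc ‖φ ((∑ i, tt (x i) (z i)) k)‖ ≤ ‖φ‖ * ‖(∑ i, tt (x i) (z i)) k‖ := φ.le_opNorm _
            _ ≤ 1 * ‖∑ i, tt (x i) (z i)‖ := by
              gcongr
              exact ContinuousMap.norm_coe_le_norm _ k
            _ = _ := one_mul _
    · intro c hc
      have hc0 : 0 ≤ c := hc ⟨0, 0, by simp, by simp, by simp⟩
      rw [ContinuousMap.norm_le _ hc0]
      intro k
      by_cases h0 : (∑ i, tt (x i) (z i)) k = 0
      · rw [h0, norm_zero]; exact hc0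
      · set v := (∑ i, tt (x i) (z i)) k with hv
        have hvn : ‖v‖ ≠ 0 := norm_ne_zero_iff.mpr h0
        refine hc ⟨‖v‖⁻¹ • innerSL ℝ v, ContinuousMap.evalCLM ℝ k, ?_, ?_, ?_⟩
        · rw [norm_smul, norm_inv, norm_norm, innerSL_apply_norm, inv_mul_cancel₀ hvn]
        · refine ContinuousLinearMap.opNorm_le_bound _ zero_le_one ?_
          intro f
          rw [one_mul]
          exact ContinuousMap.norm_coe_le_norm f k
        · have h3 : ∑ i, (‖v‖⁻¹ • innerSL ℝ v) (x i) * (ContinuousMap.evalCLM ℝ k) (z i) =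
              ‖v‖⁻¹ * ⟪v, v⟫_ℝ := by
            have h4 : ⟪v, v⟫_ℝ = ∑ i, z i k * ⟪v, x i⟫_ℝ := by
              have h5 : ⟪v, (∑ i, tt (x i) (z i)) k⟫_ℝ = ∑ i, z i k * ⟪v, x i⟫_ℝ := by
                simp only [ContinuousMap.sum_apply, tt_apply, inner_sum, inner_smul_right]
              rw [← hv] at h5
              exact h5
            rw [h4, Finset.mul_sum]
            apply Finset.sum_congr rfl
            intro i _
            simp [ContinuousMap.evalCLM]
            ring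
          rw [h3, real_inner_self_eq_norm_mul_norm, ← mul_assoc, inv_mul_cancel₀ hvn, one_mul,
            abs_norm]
  dense := by
    rw [eq_top_iff]
    intro g _
    exact mem_tensorSub (Y := (⊤ : Submodule ℝ X)) (g := g) (fun k => Submodule.mem_top)

/-- The function `τ(n) = 1/(n+1)`, `τ(∞) = 0`. -/
noncomputable def tau : C(OnePoint ℕ, ℝ) :=
  continuousMapMkNat (fun m => 1 / ((m : ℝ) + 1)) 0 tendsto_one_div_add_atTop_nhds_zero_nat

theorem tau_coe (m : ℕ) : tau (m : OnePoint ℕ) = 1 / ((m : ℝ) + 1) := rfl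
theorem tau_infty : tau ∞ = 0 := rfl

theorem tau_bd (k : OnePoint ℕ) : 0 ≤ tau k ∧ tau k ≤ 1 := by
  induction k using OnePoint.rec with
  | infty => rw [tau_infty]; norm_num
  | coe m =>
    rw [tau_coe]
    constructor
    · positivity
    · rw [div_le_one (by positivity)]
      have : (0 : ℝ) ≤ m := Nat.cast_nonneg m
      linarith

/-- Separation of the values of `τ`. -/
theorem tau_sep (m : ℕ) : ∃ d : ℝ, 0 < d ∧ d ≤ 1 ∧ ∀ k : OnePoint ℕ, k ≠ (m : OnePoint ℕ) →
    d ≤ (tau k - tau (m : OnePoint ℕ)) ^ 2 := by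
  refine ⟨(1 / (((m : ℝ) + 1) * (m + 2))) ^ 2, by positivity, ?_, ?_⟩
  · have h0 : (0 : ℝ) ≤ m := Nat.cast_nonneg m
    have h1 : 1 / (((m : ℝ) + 1) * (m + 2)) ≤ 1 := by
      rw [div_le_one (by positivity)]
      nlinarith
    have h2 : 0 ≤ 1 / (((m : ℝ) + 1) * (m + 2)) := by positivity
    nlinarith
  · intro k hk
    have h0 : (0 : ℝ) ≤ m := Nat.cast_nonneg m
    have key : 1 / (((m : ℝ) + 1) * (m + 2)) ≤ |tau k - tau (m : OnePoint ℕ)| := by
      induction k using OnePoint.rec with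
      | infty =>
        rw [tau_infty, tau_coe, zero_sub, abs_neg, abs_of_nonneg (by positivity)]
        rw [div_le_div_iff₀ (by positivity) (by positivity)]
        nlinarith
      | coe j =>
        rw [tau_coe, tau_coe]
        have hjm : j ≠ m := fun h => hk (by rw [h])
        have hj0 : (0 : ℝ) ≤ j := Nat.cast_nonneg j
        rcases lt_or_gt_of_ne hjm with h | h
        · have h1 : (j : ℝ) + 1 ≤ m := by exact_mod_cast h
          rw [abs_of_nonneg]
          · rw [div_sub_div _ _ (by positivity) (by positivity),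
              div_le_div_iff₀ (by positivity) (by positivity)]
            nlinarith [mul_nonneg hj0 h0, mul_nonneg (sub_nonneg.mpr h1) h0,
              mul_nonneg (sub_nonneg.mpr h1) (mul_nonneg h0 h0),
              mul_nonneg (sub_nonneg.mpr h1) (mul_nonneg h0 hj0)]
          · rw [sub_nonneg, div_le_div_iff₀ (by positivity) (by positivity)]
            nlinarith
        · have h1 : (m : ℝ) + 1 ≤ j := by exact_mod_cast h
          rw [abs_sub_comm, abs_of_nonneg]
          · rw [div_sub_div _ _ (by positivity) (by positivity),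
              div_le_div_iff₀ (by positivity) (by positivity)]
            nlinarith [mul_nonneg hj0 h0, mul_nonneg (sub_nonneg.mpr h1) h0,
              mul_nonneg (sub_nonneg.mpr h1) (mul_nonneg h0 h0),
              mul_nonneg (sub_nonneg.mpr h1) (mul_nonneg h0 hj0)]
          · rw [sub_nonneg, div_le_div_iff₀ (by positivity) (by positivity)]
            nlinarith
    have h2 : 0 ≤ 1 / (((m : ℝ) + 1) * (m + 2)) := by positivity
    calc (1 / (((m : ℝ) + 1) * (m + 2))) ^ 2 ≤ |tau k - tau (m : OnePoint ℕ)| ^ 2 :=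
          pow_le_pow_left₀ h2 key 2
      _ = _ := sq_abs _

/-- The peak function at `m`. -/
noncomputable def qq (m : ℕ) : C(OnePoint ℕ, ℝ) :=
  (2 - (tau (m : OnePoint ℕ)) ^ 2) • (1 : C(OnePoint ℕ, ℝ)) + (2 * tau (m : OnePoint ℕ)) • tau
    - tau * tau

theorem qq_apply (m : ℕ) (k : OnePoint ℕ) :
    qq m k = 2 - (tau k - tau (m : OnePoint ℕ)) ^ 2 := by
  simp [qq]
  ring

theorem tt_qq (u : X) (m : ℕ) : tt u (qq m) = (2 - (tau (m : OnePoint ℕ)) ^ 2) • tt u 1 +
    (2 * tau (m : OnePoint ℕ)) • tt u tau - tt u (tau * tau) := by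
  simp [qq]

/-- The main pointwise analysis. -/
theorem peak {u e : X} {z g : C(OnePoint ℕ, X)} (hu : ‖u‖ = 1) (he : ‖e‖ = 1) (hue : ⟪u, e⟫_ℝ = 0)
    (huz : ∀ k, ⟪u, z k⟫_ℝ = 0) (hez : ∀ k, ⟪e, z k⟫_ℝ = 0) (hz1 : ∀ k, ‖z k‖ ≤ 1)
    (h : ∀ (m : ℕ) (R a : ℝ), ‖R • tt u (qq m) + z + a • g‖ = ‖R • tt u (qq m) + z + a • tt e 1‖)
    (m : ℕ) : ⟪u, g (m : OnePoint ℕ)⟫_ℝ = 0 ∧ ⟪z (m : OnePoint ℕ), g (m : OnePoint ℕ)⟫_ℝ = 0 ∧
      1 ≤ ‖g (m : OnePoint ℕ)‖ := by
  obtain ⟨d, hd0, hd1, hd⟩ := tau_sep m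
  -- pointwise norm on the `e` side
  have hw : ∀ (R a : ℝ) (k : OnePoint ℕ), ‖(R • tt u (qq m) + z + a • tt e 1 : C(OnePoint ℕ, X)) k‖ ^ 2 =
      R ^ 2 * (qq m k) ^ 2 + ‖z k‖ ^ 2 + a ^ 2 := by
    intro R a k
    have h1 : (R • tt u (qq m) + z + a • tt e 1 : C(OnePoint ℕ, X)) k = (R * qq m k) • u + z k + a • e := by
      simp [smul_smul]
    rw [h1, ← real_inner_self_eq_norm_sq]
    simp only [inner_add_left, inner_add_right, inner_smul_left, inner_smul_right,
      RCLike.conj_to_real]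
    rw [real_inner_self_eq_norm_sq, real_inner_self_eq_norm_sq, real_inner_self_eq_norm_sq,
      real_inner_comm u (z k), real_inner_comm e (z k), real_inner_comm u e, hue, huz k, hez k,
      hu, he]
    ring
  have hqm : qq m (m : OnePoint ℕ) = 2 := by rw [qq_apply, sub_self]; norm_num
  have hq1 : ∀ k, 1 ≤ qq m k := by
    intro k
    rw [qq_apply]
    have a1 := tau_bd k
    have a2 := tau_bd (m : OnePoint ℕ)
    nlinarith
  have hq2 : ∀ k, k ≠ (m : OnePoint ℕ) → qq m k ≤ 2 - d := by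
    intro k hk
    rw [qq_apply]
    linarith [hd k hk]
  -- the `g` side at `m`
  have hgm : ∀ R a : ℝ, ‖(R • tt u (qq m) + z + a • g : C(OnePoint ℕ, X)) (m : OnePoint ℕ)‖ ^ 2 =
      4 * R ^ 2 + ‖z (m : OnePoint ℕ)‖ ^ 2 + a ^ 2 * ‖g (m : OnePoint ℕ)‖ ^ 2 +
        4 * R * a * ⟪u, g (m : OnePoint ℕ)⟫_ℝ + 2 * a * ⟪z (m : OnePoint ℕ), g (m : OnePoint ℕ)⟫_ℝ := by
    intro R a
    have h1 : (R • tt u (qq m) + z + a • g : C(OnePoint ℕ, X)) (m : OnePoint ℕ) =
        (R * 2) • u + z (m : OnePoint ℕ) + a • g (m : OnePoint ℕ) := by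
      simp [smul_smul, hqm]
    rw [h1, ← real_inner_self_eq_norm_sq]
    simp only [inner_add_left, inner_add_right, inner_smul_left, inner_smul_right,
      RCLike.conj_to_real]
    rw [real_inner_self_eq_norm_sq, real_inner_self_eq_norm_sq, real_inner_self_eq_norm_sq,
      real_inner_comm u (z _), real_inner_comm u (g _), real_inner_comm (z _) (g _), huz, hu]
    ring
  -- upper bound of the `e` side
  have hup : ∀ R a : ℝ, 1 / d ≤ R → ‖R • tt u (qq m) + z + a • tt e 1‖ ^ 2 ≤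
      4 * R ^ 2 + ‖z (m : OnePoint ℕ)‖ ^ 2 + a ^ 2 := by
    intro R a hR
    have hR0 : 0 < R := lt_of_lt_of_le (by positivity) hR
    have hRd : 1 ≤ R * d := by
      rwa [div_le_iff₀ hd0] at hR
    have hB0 : 0 ≤ 4 * R ^ 2 + ‖z (m : OnePoint ℕ)‖ ^ 2 + a ^ 2 := by positivity
    rw [← Real.sqrt_le_sqrt_iff hB0, Real.sqrt_sq (norm_nonneg _),
      ContinuousMap.norm_le _ (Real.sqrt_nonneg _)]
    intro k
    apply Real.le_sqrt_of_sq_le
    rw [hw]
    by_cases hk : k = (m : OnePoint ℕ)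
    · rw [hk, hqm]; nlinarith
    · have b1 := hq1 k
      have b2 := hq2 k hk
      have b3 := hz1 k
      have b4 := norm_nonneg (z k)
      have b5 : (qq m k) ^ 2 ≤ 4 - 3 * d := by nlinarith
      have b6 : R ^ 2 * (qq m k) ^ 2 ≤ R ^ 2 * (4 - 3 * d) :=
        mul_le_mul_of_nonneg_left b5 (by positivity)
      have b7 : 1 ≤ R ^ 2 * d := by
        have : 1 ≤ R := by
          have : 1 ≤ 1 / d := by rw [le_div_iff₀ hd0]; linarith
          linarith
        nlinarith
      nlinarith [sq_nonneg (‖z (m : OnePoint ℕ)‖)]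
  -- lower bound for the norm by the value at `m`
  have hmain : ∀ R a : ℝ, 1 / d ≤ R →
      a ^ 2 * ‖g (m : OnePoint ℕ)‖ ^ 2 + 4 * R * a * ⟪u, g (m : OnePoint ℕ)⟫_ℝ +
        2 * a * ⟪z (m : OnePoint ℕ), g (m : OnePoint ℕ)⟫_ℝ ≤ a ^ 2 := by
    intro R a hR
    have h1 := hup R a hR
    rw [← h m R a] at h1
    have h2 : ‖(R • tt u (qq m) + z + a • g : C(OnePoint ℕ, X)) (m : OnePoint ℕ)‖ ^ 2 ≤
        ‖R • tt u (qq m) + z + a • g‖ ^ 2 :=
      pow_le_pow_left₀ (norm_nonneg _) (ContinuousMap.norm_coe_le_norm _ _) 2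
    rw [hgm] at h2
    linarith
  generalize hα : ⟪u, g (m : OnePoint ℕ)⟫_ℝ = α at hmain hgm ⊢
  generalize hβ : ⟪z (m : OnePoint ℕ), g (m : OnePoint ℕ)⟫_ℝ = β at hmain hgm ⊢
  generalize hγ : ‖g (m : OnePoint ℕ)‖ = γ at hmain hgm ⊢
  have hγ0 : 0 ≤ γ := by rw [← hγ]; exact norm_nonneg _
  have hα0 : α = 0 := by
    by_contra hne
    have hpos : 0 < |α| := abs_pos.mpr hne
    -- take `a = sign`
    obtain ⟨s, hs1, hs2⟩ : ∃ s : ℝ, s ^ 2 = 1 ∧ s * α = |α| := by
      rcases le_total 0 α with h0 | h0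
      · exact ⟨1, by norm_num, by rw [abs_of_nonneg h0]; ring⟩
      · exact ⟨-1, by norm_num, by rw [abs_of_nonpos h0]; ring⟩
    have h1 := hmain (1 / d + (1 + 2 * |β|) / |α|) s (by
      have : 0 ≤ (1 + 2 * |β|) / |α| := by positivity
      linarith)
    have h2 : 4 * (1 / d + (1 + 2 * |β|) / |α|) * s * α = 4 * (1 / d) * |α| + 4 * (1 + 2 * |β|) := by
      rw [mul_assoc, hs2]
      field_simp
    rw [h2, hs1] at h1
    have h3 : 0 ≤ 4 * (1 / d) * |α| := by positivity
    have h4 : -(2 * |β|) ≤ 2 * s * β := by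
      have : |s| = 1 := by
        have h7 : |s| ^ 2 = 1 := by rw [sq_abs]; exact hs1
        nlinarith [abs_nonneg s]
      have h5 : |s * β| = |β| := by rw [abs_mul, this, one_mul]
      have h6 := neg_abs_le (s * β)
      rw [h5] at h6
      linarith
    have h5 : 0 ≤ |β| := abs_nonneg β
    nlinarith [sq_nonneg γ]
  subst hα0
  have hβ0 : β = 0 := by
    have h1 := hmain (1 / d) β le_rfl
    have h2 : β ^ 2 * (1 + γ ^ 2) ≤ 0 := by nlinarith
    have h3 : 0 ≤ β ^ 2 * γ ^ 2 := by positivity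
    have h4 : β ^ 2 = 0 := by nlinarith [sq_nonneg β]
    exact pow_eq_zero_iff (two_ne_zero) |>.mp h4
  subst hβ0
  refine ⟨rfl, rfl, ?_⟩
  by_contra hlt
  push Not at hlt
  -- choose `R` large
  have hG0 : 0 ≤ ‖g‖ := norm_nonneg _
  set R : ℝ := (1 + ‖g‖) / d with hR
  have hR0 : 0 < R := by positivity
  have hRd : R * d = 1 + ‖g‖ := by rw [hR]; field_simp
  have hlow : 4 * R ^ 2 + ‖z (m : OnePoint ℕ)‖ ^ 2 + 1 ≤ ‖R • tt u (qq m) + z + (1 : ℝ) • g‖ ^ 2 := by
    rw [h m R 1]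
    have h2 : ‖(R • tt u (qq m) + z + (1 : ℝ) • tt e 1 : C(OnePoint ℕ, X)) (m : OnePoint ℕ)‖ ^ 2 ≤
        ‖R • tt u (qq m) + z + (1 : ℝ) • tt e 1‖ ^ 2 :=
      pow_le_pow_left₀ (norm_nonneg _) (ContinuousMap.norm_coe_le_norm _ _) 2
    rw [hw, hqm] at h2
    nlinarith
  have hhigh : ‖R • tt u (qq m) + z + (1 : ℝ) • g‖ ^ 2 ≤
      4 * R ^ 2 + ‖z (m : OnePoint ℕ)‖ ^ 2 + γ ^ 2 := by
    have hB0 : 0 ≤ 4 * R ^ 2 + ‖z (m : OnePoint ℕ)‖ ^ 2 + γ ^ 2 := by positivity
    rw [← Real.sqrt_le_sqrt_iff hB0, Real.sqrt_sq (norm_nonneg _),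
      ContinuousMap.norm_le _ (Real.sqrt_nonneg _)]
    intro k
    apply Real.le_sqrt_of_sq_le
    by_cases hk : k = (m : OnePoint ℕ)
    · rw [hk, hgm]; nlinarith
    · have b1 := hq1 k
      have b2 := hq2 k hk
      have b3 := hz1 k
      have b4 : ‖(R • tt u (qq m) + z + (1 : ℝ) • g : C(OnePoint ℕ, X)) k‖ ≤ 2 * R := by
        have e1 : (R • tt u (qq m) + z + (1 : ℝ) • g : C(OnePoint ℕ, X)) k = (R * qq m k) • u + z k + g k := by
          simp [smul_smul]
        rw [e1]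
        calc ‖(R * qq m k) • u + z k + g k‖ ≤ ‖(R * qq m k) • u‖ + ‖z k‖ + ‖g k‖ :=
              norm_add₃_le
          _ ≤ R * (2 - d) + 1 + ‖g‖ := by
            rw [norm_smul, hu, mul_one, Real.norm_of_nonneg (by positivity)]
            have := ContinuousMap.norm_coe_le_norm g k
            have : R * qq m k ≤ R * (2 - d) := mul_le_mul_of_nonneg_left b2 hR0.le
            linarith
          _ = 2 * R := by rw [mul_sub, hRd]; ring
      have b5 : ‖(R • tt u (qq m) + z + (1 : ℝ) • g : C(OnePoint ℕ, X)) k‖ ^ 2 ≤ (2 * R) ^ 2 :=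
        pow_le_pow_left₀ (norm_nonneg _) b4 2
      nlinarith [sq_nonneg (‖z (m : OnePoint ℕ)‖), sq_nonneg γ]
  nlinarith

end Hilbert

end Pool.Agent.R272.IsoIdeal
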